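import Pool.Agent.Helper78.SD.Goals

/-!
# Packets CLASS and REFL
-/

universe u v w

namespace Pool.Agent.Helper27.SD

open Pool.Agent.Helper10.Width Pool.Agent.Helper72.Width Pool.Agent.Helper78.SD

theorem coind_ext {S : Type u} [Ring S] {S₀ : Subring S} {J : Type w} (B : CBasis S₀ J)
    {M : Type v} [AddCommGroup M] [Module S₀ M] (c : Coind S₀ M) (h : ∀ j, c (B.el j) = 0) :
    c = 0 := by
  have : (c : S →ₗ[S₀] M) = 0 := B.basis.ext fun j => h j
  exact this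

theorem goalClass : GoalClass.{u, v, w} := by
  intro S _ S₀ J B T₀ M _ _ hM
  rintro _ ⟨⟨α, β⟩, hT, rfl⟩ f hf
  have hf' : f ∈ α.sol (Coind S₀ M) := hf
  have h1 : ∀ h : J, f (B.el h) ∈ β.sol M := fun h =>
    hM _ hT (α.map_sol (Coind.eval (B.el h) (B.el_comm h)) hf')
  choose y hy using h1
  let Y : Fin β.k → Coind S₀ M := fun l => (B.basis.constr ℕ (fun h => y h l) : S →ₗ[S₀] M)
  have hY : ∀ l h, Y l (B.el h) = y h l := fun l h => B.basis.constr_basis ℕ _ h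
  show f ∈ β.sol (Coind S₀ M)
  refine ⟨Y, fun r => coind_ext B _ fun h => ?_⟩
  have e : (Coind.eval (B.el h) (B.el_comm h)) (β.a r • f + ∑ l, β.b r l • Y l) =
      β.a r • f (B.el h) + ∑ l, β.b r l • y h l := by
    rw [map_add, map_smul, map_sum, Coind.eval_apply]
    congr 1
    refine Finset.sum_congr rfl fun l _ => ?_
    rw [map_smul, Coind.eval_apply, hY]
  rw [← Coind.eval_apply (B.el h) (B.el_comm h), e]
  exact hy h r

theorem goalReflect : GoalReflect.{u, w} := by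
  rintro S _ S₀ J B ⟨j⟩ T₀ θ θ' h ⟨M₀, hM₀⟩ x hx
  have hC : InClass (upT S₀ T₀) (Coind S₀ M₀) := goalClass S S₀ J B T₀ M₀ hM₀
  have h1 : B.pr j x ∈ θ.sol (Coind S₀ M₀) := θ.map_sol (B.pr j) hx
  have h2 : B.pr j x ∈ θ'.sol (Coind S₀ M₀) := h ⟨ModuleCat.of S (Coind S₀ M₀), hC⟩ h1
  have h3 := θ'.map_sol (Coind.eval (B.el j) (B.el_comm j)) h2
  rw [Coind.eval_apply, B.pr_apply, B.co_el_same, one_smul] at h3
  exact h3

end Pool.Agent.Helper27.SD
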