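import Pool.Agent.Helper78.SD.Goals2

/-!
# Packet RESTRICT: restriction along a surjective ring homomorphism
-/

universe u v w

namespace Pool.Agent.Helper27.SD

open Pool.Agent.Helper10.Width Pool.Agent.Helper72.Width Pool.Agent.Helper78.SD

section transfer

variable {S : Type u} {S' : Type u} [Ring S] [Ring S'] {π : S →+* S'}

/-- Submodules correspond along a surjective ring homomorphism. -/
def oiso (hπ : Function.Surjective π) {N : Type v} {N' : Type w} [AddCommGroup N] [Module S N]
    [AddCommGroup N'] [Module S' N'] (φ : N ≃+ N') (h : ∀ (s : S) (x : N), φ (s • x) = π s • φ x) :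
    Submodule S N ≃o Submodule S' N' where
  toFun A :=
    { carrier := {y | φ.symm y ∈ A}
      add_mem' := by
        intro x y hx hy
        simp only [Set.mem_ofPred_eq, map_add] at *
        exact A.add_mem hx hy
      zero_mem' := by
        simp only [Set.mem_ofPred_eq, map_zero]
        exact A.zero_mem
      smul_mem' := by
        intro s' y hy
        obtain ⟨s, rfl⟩ := hπ s'
        simp only [Set.mem_ofPred_eq] at *
        have e : φ.symm (π s • y) = s • φ.symm y := by
          rw [AddEquiv.symm_apply_eq, h, AddEquiv.apply_symm_apply]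
        rw [e]
        exact A.smul_mem s hy }
  invFun X :=
    { carrier := {x | φ x ∈ X}
      add_mem' := by
        intro x y hx hy
        simp only [Set.mem_ofPred_eq, map_add] at *
        exact X.add_mem hx hy
      zero_mem' := by
        simp only [Set.mem_ofPred_eq, map_zero]
        exact X.zero_mem
      smul_mem' := by
        intro s x hx
        simp only [Set.mem_ofPred_eq] at *
        rw [h]
        exact X.smul_mem _ hx }
  left_inv A := by
    ext x
    show φ.symm (φ x) ∈ A ↔ x ∈ A
    rw [AddEquiv.symm_apply_apply]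
  right_inv X := by
    ext x
    show φ (φ.symm x) ∈ X ↔ x ∈ X
    rw [AddEquiv.apply_symm_apply]
  map_rel_iff' := by
    intro A B
    constructor
    · intro hAB x hx
      have : φ.symm (φ x) ∈ B := hAB (show φ.symm (φ x) ∈ A by
        rw [AddEquiv.symm_apply_apply]; exact hx)
      rwa [AddEquiv.symm_apply_apply] at this
    · intro hAB y hy
      exact hAB hy

theorem mem_oiso (hπ : Function.Surjective π) {N : Type v} {N' : Type w} [AddCommGroup N]
    [Module S N] [AddCommGroup N'] [Module S' N'] (φ : N ≃+ N')
    (h : ∀ (s : S) (x : N), φ (s • x) = π s • φ x) (A : Submodule S N) (y : N') :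
    y ∈ oiso hπ φ h A ↔ φ.symm y ∈ A := Iff.rfl

theorem indec_transfer (hπ : Function.Surjective π) {N : Type v} {N' : Type w} [AddCommGroup N]
    [Module S N] [AddCommGroup N'] [Module S' N'] (φ : N ≃+ N')
    (h : ∀ (s : S) (x : N), φ (s • x) = π s • φ x) (hN : Indecomposable S N) :
    Indecomposable S' N' := by
  refine ⟨?_, fun A B hAB => ?_⟩
  · have := hN.1
    exact φ.symm.toEquiv.nontrivial
  · have h1 : IsCompl ((oiso hπ φ h).symm A) ((oiso hπ φ h).symm B) :=
      (oiso hπ φ h).symm.isCompl hAB
    rcases hN.2 _ _ h1 with h2 | h2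
    · left
      have := congrArg (oiso hπ φ h) h2
      rwa [OrderIso.apply_symm_apply, map_bot] at this
    · right
      have := congrArg (oiso hπ φ h) h2
      rwa [OrderIso.apply_symm_apply, map_bot] at this

theorem superdec_transfer (hπ : Function.Surjective π) {N : Type v} {N' : Type w}
    [AddCommGroup N] [Module S N] [AddCommGroup N'] [Module S' N'] (φ : N ≃+ N')
    (h : ∀ (s : S) (x : N), φ (s • x) = π s • φ x) (hN : Superdecomposable S' N') :
    Superdecomposable S N := by
  refine ⟨?_, fun A B hAB hA => ?_⟩
  · have := hN.1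
    exact φ.toEquiv.nontrivial
  · refine hN.2 (oiso hπ φ h A) (oiso hπ φ h B) ((oiso hπ φ h).isCompl hAB) ?_
    have hmem : ∀ x : A, φ x ∈ oiso hπ φ h A := fun x => by
      rw [mem_oiso, AddEquiv.symm_apply_apply]
      exact x.2
    let ψ : A ≃+ oiso hπ φ h A :=
      { toFun := fun x => ⟨φ x, hmem x⟩
        invFun := fun y => ⟨φ.symm y, y.2⟩
        left_inv := fun x => Subtype.ext (φ.symm_apply_apply _)
        right_inv := fun y => Subtype.ext (φ.apply_symm_apply _)
        map_add' := fun x y => Subtype.ext (map_add φ _ _) }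
    exact indec_transfer hπ ψ (fun s x => Subtype.ext (h s x)) hA

theorem sol_pmap {M : Type v} [AddCommGroup M] [Module S M] [Module S' M]
    (h : ∀ (s : S) (x : M), s • x = π s • x) (φ : PP S) : (pmap π φ).sol M = φ.sol M := by
  ext x
  have e : ∀ (y : Fin φ.k → M) (r : Fin φ.n), φ.a r • x + ∑ j, φ.b r j • y j =
      π (φ.a r) • x + ∑ j, π (φ.b r j) • y j := by
    intro y r
    rw [h]
    congr 1
    exact Finset.sum_congr rfl fun j _ => h _ _
  constructor
  · rintro ⟨y, hy⟩
    exact ⟨y, fun r => (e y r).trans (hy r)⟩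
  · rintro ⟨y, hy⟩
    exact ⟨y, fun r => (e y r).symm.trans (hy r)⟩

end transfer

section pure

variable {S : Type u} [Ring S]

/-- Pure embeddings and systems with arbitrary finite index types. -/
theorem pure_fintype {A B : Type v} [AddCommGroup A] [Module S A] [AddCommGroup B] [Module S B]
    {i : A →ₗ[S] B} (hi : IsPureEmb i) {ι : Type} {κ : Type} [Fintype ι] [Fintype κ]
    (b : ι → κ → S) (c : ι → A) (hy : ∃ y : κ → B, ∀ r, ∑ j, b r j • y j = i (c r)) :
    ∃ y : κ → A, ∀ r, ∑ j, b r j • y j = c r := by
  obtain ⟨y, hy⟩ := hy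
  obtain ⟨z, hz⟩ := hi.2 (Fintype.card ι) (Fintype.card κ)
    (fun r j => b ((Fintype.equivFin ι).symm r) ((Fintype.equivFin κ).symm j))
    (fun r => c ((Fintype.equivFin ι).symm r))
    ⟨fun j => y ((Fintype.equivFin κ).symm j), fun r => by
      rw [← hy]
      exact (Fintype.sum_equiv (Fintype.equivFin κ).symm _ _ (fun j => rfl))⟩
  refine ⟨fun j => z (Fintype.equivFin κ j), fun r => ?_⟩
  have := hz (Fintype.equivFin ι r)
  rw [Equiv.symm_apply_apply] at this
  rw [← this]
  refine Fintype.sum_equiv (Fintype.equivFin κ) _ _ (fun j => ?_)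
  rw [Equiv.symm_apply_apply]

variable {S' : Type u} [Ring S'] (π : S →+* S')

/-- The submodule generated by the multiples of the kernel. -/
def IN (N : Type v) [AddCommGroup N] [Module S N] : Submodule S N where
  carrier := {x | ∃ (n : ℕ) (s : Fin n → S) (z : Fin n → N), (∀ k, π (s k) = 0) ∧
    x = ∑ k, s k • z k}
  add_mem' := by
    rintro _ _ ⟨n, s, z, hs, rfl⟩ ⟨n', s', z', hs', rfl⟩
    refine ⟨n + n', Fin.append s s', Fin.append z z', fun k => ?_, ?_⟩
    · refine Fin.addCases (fun i => ?_) (fun i => ?_) k
      · rw [Fin.append_left]; exact hs i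
      · rw [Fin.append_right]; exact hs' i
    · rw [Fin.sum_univ_add]
      simp
  zero_mem' := ⟨0, Fin.elim0, Fin.elim0, fun k => k.elim0, by simp⟩
  smul_mem' := by
    rintro t _ ⟨n, s, z, hs, rfl⟩
    refine ⟨n, fun k => t * s k, z, fun k => ?_, ?_⟩
    · rw [map_mul, hs, mul_zero]
    · rw [Finset.smul_sum]
      exact Finset.sum_congr rfl fun k _ => (mul_smul _ _ _).symm

theorem smul_mem_IN {N : Type v} [AddCommGroup N] [Module S N] {s : S} (hs : π s = 0) (x : N) :
    s • x ∈ IN π N := ⟨1, fun _ => s, fun _ => x, fun _ => hs, by simp⟩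

/-- The quotient by the multiples of the kernel. -/
abbrev QN (N : Type v) [AddCommGroup N] [Module S N] : Type v := N ⧸ IN π N

theorem kill {N : Type v} [AddCommGroup N] [Module S N] {s : S} (hs : π s = 0) (x : QN π N) :
    s • x = 0 := by
  obtain ⟨x, rfl⟩ := Submodule.Quotient.mk_surjective _ x
  rw [← Submodule.Quotient.mk_smul, Submodule.Quotient.mk_eq_zero]
  exact smul_mem_IN π hs x

theorem kill_sub {N : Type v} [AddCommGroup N] [Module S N] {s t : S} (hs : π s = π t)
    (x : QN π N) : s • x = t • x := by
  rw [← sub_eq_zero, ← sub_smul]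
  exact kill π (by rw [map_sub, hs, sub_self]) x

variable (hπ : Function.Surjective π)

/-- The quotient is a module over the quotient ring. -/
@[reducible] noncomputable def modQ (N : Type v) [AddCommGroup N] [Module S N] : Module S' (QN π N) :=
  let _ : SMul S' (QN π N) := ⟨fun s' x => (Function.surjInv hπ s') • x⟩
  Function.Surjective.moduleLeft π hπ
    (fun c x => kill_sub π (Function.surjInv_eq hπ (π c)) x)

end pure

theorem goalRestrict : GoalRestrict.{u} := by
  intro S S' _ _ π hπ T
  rintro ⟨M', hcl, hpi, hsd⟩
  let mM : Module S M' := Module.compHom M' π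
  have hact : ∀ (s : S) (x : M'), s • x = π s • x := fun s x => rfl
  refine ⟨ModuleCat.of S M', ?_, ?_, ?_⟩
  · intro p hp
    have h1 := hcl _ ⟨p, hp, rfl⟩
    have e1 := sol_pmap (π := π) (M := M') hact p.1
    have e2 := sol_pmap (π := π) (M := M') hact p.2
    rw [e1, e2] at h1
    exact h1
  · -- pure injectivity
    intro A B _ _ _ _ i hi f
    let mA : Module S' (QN π A) := modQ π hπ A
    let mB : Module S' (QN π B) := modQ π hπ B
    have hsA : ∀ (s : S) (x : QN π A), π s • x = s • x := fun s x =>
      kill_sub π (Function.surjInv_eq hπ (π s)) x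
    have hsB : ∀ (s : S) (x : QN π B), π s • x = s • x := fun s x =>
      kill_sub π (Function.surjInv_eq hπ (π s)) x
    have hle : IN π A ≤ (IN π B).comap i := by
      rintro _ ⟨n, s, z, hs, rfl⟩
      refine ⟨n, s, fun k => i (z k), hs, ?_⟩
      rw [map_sum]
      exact Finset.sum_congr rfl fun k _ => map_smul i _ _
    let i₀ : QN π A →ₗ[S] QN π B := Submodule.mapQ (IN π A) (IN π B) i hle
    have hi₀ : ∀ a : A, i₀ (Submodule.Quotient.mk a) = Submodule.Quotient.mk (i a) := fun a => rfl
    let i' : QN π A →ₗ[S'] QN π B :=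
      { toFun := i₀
        map_add' := map_add i₀
        map_smul' := by
          intro s' x
          obtain ⟨s, rfl⟩ := hπ s'
          rw [hsA, map_smul, RingHom.id_apply, hsB] }
    have hi' : ∀ a : A, i' (Submodule.Quotient.mk a) = Submodule.Quotient.mk (i a) := fun a => rfl
    have hpure : IsPureEmb i' := by
      constructor
      · rw [injective_iff_map_eq_zero]
        intro x hx
        obtain ⟨a, rfl⟩ := Submodule.Quotient.mk_surjective _ x
        rw [hi', Submodule.Quotient.mk_eq_zero] at hx
        obtain ⟨n, s, z, hs, hz⟩ := hx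
        obtain ⟨y, hy⟩ := hi.2 1 n (fun _ => s) (fun _ => a) ⟨z, fun _ => hz.symm⟩
        rw [Submodule.Quotient.mk_eq_zero]
        exact ⟨n, s, y, hs, (hy 0).symm⟩
      · intro n k b' c' hy
        obtain ⟨y', hy'⟩ := hy
        choose b hb using fun r j => hπ (b' r j)
        choose c hc using fun r => Submodule.Quotient.mk_surjective (IN π A) (c' r)
        choose y hyy using fun j => Submodule.Quotient.mk_surjective (IN π B) (y' j)
        have h1 : ∀ r, ∑ j, b r j • y j - i (c r) ∈ IN π B := by
          intro r
          rw [← Submodule.Quotient.mk_eq_zero, Submodule.Quotient.mk_sub, sub_eq_zero, ← hi', hc,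
            ← hy' r]
          rw [← Submodule.mkQ_apply, map_sum]
          refine Finset.sum_congr rfl fun j _ => ?_
          rw [map_smul, Submodule.mkQ_apply, hyy, ← hb r j, hsB]
        choose m s z hs hz using h1
        obtain ⟨Y, hY⟩ := pure_fintype hi (ι := Fin n) (κ := Fin k ⊕ (Σ r : Fin n, Fin (m r)))
          (fun r => Sum.elim (b r) (fun q => if q.1 = r then -(s q.1 q.2) else 0)) c
          ⟨Sum.elim y (fun q => z q.1 q.2), fun r => by
            rw [Fintype.sum_sum_type, Fintype.sum_sigma]
            simp only [Sum.elim_inl, Sum.elim_inr]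
            rw [Finset.sum_eq_single r]
            · simp only [if_true, neg_smul, Finset.sum_neg_distrib]
              rw [← hz r]
              abel
            · intro r' _ hr'
              simp [hr']
            · intro h
              exact absurd (Finset.mem_univ r) h⟩
        refine ⟨fun j => Submodule.Quotient.mk (Y (Sum.inl j)), fun r => ?_⟩
        have h2 := hY r
        rw [Fintype.sum_sum_type, Fintype.sum_sigma] at h2
        simp only [Sum.elim_inl, Sum.elim_inr] at h2
        rw [Finset.sum_eq_single r] at h2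
        · simp only [if_true, neg_smul, Finset.sum_neg_distrib] at h2
          have h3 : ∑ j, b r j • Y (Sum.inl j) = c r + ∑ q, s r q • Y (Sum.inr ⟨r, q⟩) := by
            rw [← h2]
            abel
          have h4 := congrArg (IN π A).mkQ h3
          rw [map_add, map_sum] at h4
          have h5 : (IN π A).mkQ (∑ q, s r q • Y (Sum.inr ⟨r, q⟩)) = 0 := by
            rw [Submodule.mkQ_apply, Submodule.Quotient.mk_eq_zero]
            exact ⟨m r, s r, fun q => Y (Sum.inr ⟨r, q⟩), hs r, rfl⟩
          rw [h5, add_zero, Submodule.mkQ_apply, hc] at h4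
          rw [← h4]
          refine Finset.sum_congr rfl fun j _ => ?_
          rw [map_smul, Submodule.mkQ_apply, ← hb r j, hsA]
        · intro r' _ hr'
          simp [hr']
        · intro h
          exact absurd (Finset.mem_univ r) h
    have hf : IN π A ≤ LinearMap.ker f := by
      rintro _ ⟨n, s, z, hs, rfl⟩
      rw [LinearMap.mem_ker, map_sum]
      refine Finset.sum_eq_zero fun k _ => ?_
      rw [map_smul]
      show π (s k) • (f (z k) : M') = 0
      rw [hs, zero_smul]
    let f₀ : QN π A →ₗ[S] M' := (IN π A).liftQ f hf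
    let f' : QN π A →ₗ[S'] M' :=
      { toFun := f₀
        map_add' := map_add f₀
        map_smul' := by
          intro s' x
          obtain ⟨s, rfl⟩ := hπ s'
          rw [hsA, map_smul, RingHom.id_apply]
          rfl }
    obtain ⟨g', hg'⟩ := hpi (QN π A) (QN π B) i' hpure f'
    let g : B →ₗ[S] M' :=
      { toFun := fun b => g' (Submodule.Quotient.mk b)
        map_add' := fun b b' => by rw [Submodule.Quotient.mk_add, map_add]
        map_smul' := fun s b => by
          rw [Submodule.Quotient.mk_smul, ← hsB, map_smul]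
          rfl }
    refine ⟨g, ?_⟩
    ext a
    have := congrArg (fun h : QN π A →ₗ[S'] M' => h (Submodule.Quotient.mk a)) hg'
    exact this
  · exact superdec_transfer hπ (AddEquiv.refl M') (fun s x => hact s x) hsd

end Pool.Agent.Helper27.SD
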