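import Pool.Agent.Helper38.SD.GoalsB

/-!
# Packet SD-M_EXT: the extreme points of `Pol c r` are integral (project SD, MP_fc6b1e_nt)
-/

set_option autoImplicit false

namespace Pool.Agent.Helper27.SD

open Pool.Agent.Helper38.SD

/-- `A` is tight for `x`. -/
def Tight {I : Type} (r : Finset I → ℕ) (x : I → ℝ) (A : Finset I) : Prop :=
  ∑ i ∈ A, x i = r A

theorem tight_ui {I : Type} [DecidableEq I] (r : Finset I → ℕ) (x : I → ℝ)
    (hr : ∀ A B : Finset I, r (A ∪ B) + r (A ∩ B) ≤ r A + r B)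
    (hx : ∀ A : Finset I, ∑ i ∈ A, x i ≤ r A) (A B : Finset I) (hA : Tight r x A)
    (hB : Tight r x B) : Tight r x (A ∪ B) ∧ Tight r x (A ∩ B) := by
  unfold Tight at *
  have h1 : ∑ i ∈ A ∪ B, x i + ∑ i ∈ A ∩ B, x i = ∑ i ∈ A, x i + ∑ i ∈ B, x i :=
    Finset.sum_union_inter
  have h2 : ((r (A ∪ B) : ℝ) + (r (A ∩ B) : ℝ)) ≤ (r A : ℝ) + (r B : ℝ) := by
    exact_mod_cast hr A B
  have h3 := hx (A ∪ B)
  have h4 := hx (A ∩ B)
  constructor <;> linarith

theorem tight_univ {I : Type} [Fintype I] (c : I → I) (r : Finset I → ℕ) (d : ℕ)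
    (x : I → ℝ) (hc : ∀ i, c (c i) = i) (hI : Fintype.card I = 2 * d) (hd : r Finset.univ = d)
    (hx : ∀ i, x i + x (c i) = 1) : Tight r x Finset.univ := by
  unfold Tight
  have hc' : Function.Involutive c := hc
  have h1 : ∑ i, x (c i) = ∑ i, x i := Equiv.sum_comp hc'.toPerm x
  have h2 : ∑ i, (x i + x (c i)) = (Fintype.card I : ℝ) := by
    rw [Finset.sum_congr rfl (fun i _ => hx i)]; simp
  rw [Finset.sum_add_distrib, h1, hI] at h2
  push_cast at h2
  rw [hd]; linarith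

/-- The least tight set which contains `i`. -/
theorem exists_T {I : Type} [Fintype I] [DecidableEq I] (r : Finset I → ℕ) (x : I → ℝ)
    (hr : ∀ A B : Finset I, r (A ∪ B) + r (A ∩ B) ≤ r A + r B)
    (hx : ∀ A : Finset I, ∑ i ∈ A, x i ≤ r A) (hu : Tight r x Finset.univ) :
    ∃ T : I → Finset I, (∀ i, Tight r x (T i)) ∧ (∀ i, i ∈ T i) ∧
      ∀ i A, Tight r x A → i ∈ A → T i ⊆ A := by
  classical
  have H : ∀ i : I, (Finset.univ.filter (fun A : Finset I => Tight r x A ∧ i ∈ A)).Nonempty :=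
    fun i => ⟨Finset.univ, by simp [hu]⟩
  refine ⟨fun i => (Finset.univ.filter (fun A : Finset I => Tight r x A ∧ i ∈ A)).inf' (H i) id,
    ?_, ?_, ?_⟩
  · intro i
    apply Finset.inf'_induction
    · intro A hA B hB
      exact (tight_ui r x hr hx A B hA hB).2
    · intro A hA
      exact ((Finset.mem_filter.1 hA).2).1
  · intro i
    have : ({i} : Finset I) ≤
        (Finset.univ.filter (fun A : Finset I => Tight r x A ∧ i ∈ A)).inf' (H i) id := by
      apply Finset.le_inf'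
      intro A hA
      exact Finset.singleton_subset_iff.2 ((Finset.mem_filter.1 hA).2).2
    exact this (Finset.mem_singleton_self i)
  · intro i A hA hi
    exact Finset.inf'_le id (Finset.mem_filter.2 ⟨Finset.mem_univ _, hA, hi⟩)

theorem tight_biUnion {I : Type} [DecidableEq I] (r : Finset I → ℕ) (x : I → ℝ)
    (hr : ∀ A B : Finset I, r (A ∪ B) + r (A ∩ B) ≤ r A + r B)
    (hx : ∀ A : Finset I, ∑ i ∈ A, x i ≤ r A) (T : I → Finset I) (hT : ∀ i, Tight r x (T i))
    (s : Finset I) : s = ∅ ∨ Tight r x (s.biUnion T) := by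
  induction s using Finset.induction_on with
  | empty => left; rfl
  | insert a s ha ih =>
    right
    rw [Finset.biUnion_insert]
    rcases ih with rfl | ih
    · simpa using hT a
    · exact (tight_ui r x hr hx _ _ (hT a) ih).1

/-- The integers in `ℝ`. -/
def Zs : AddSubgroup ℝ := (Int.castAddHom ℝ).range

theorem tight_mem {I : Type} (r : Finset I → ℕ) (x : I → ℝ) (A : Finset I) (h : Tight r x A) :
    ∑ i ∈ A, x i ∈ Zs := by
  unfold Tight at h
  rw [h]; exact ⟨(r A : ℤ), by simp⟩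

/-- Step (1). -/
theorem step1 {I : Type} [Fintype I] [DecidableEq I] (r : Finset I → ℕ) (x : I → ℝ)
    (hr : ∀ A B : Finset I, r (A ∪ B) + r (A ∩ B) ≤ r A + r B)
    (hx : ∀ A : Finset I, ∑ i ∈ A, x i ≤ r A) (hx0 : ∀ i, 0 ≤ x i) (hx1 : ∀ i, x i ≤ 1)
    (T : I → Finset I) (hT : ∀ i, Tight r x (T i)) (hTi : ∀ i, i ∈ T i)
    (hTA : ∀ i A, Tight r x A → i ∈ A → T i ⊆ A) (i : I) (hi : x i ≠ 0 ∧ x i ≠ 1) :
    ∃ j, (x j ≠ 0 ∧ x j ≠ 1) ∧ j ≠ i ∧ T j = T i := by
  classical
  by_contra hcon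
  push Not at hcon
  set D : Finset I := Finset.univ.filter (fun j => T j = T i) with hD
  have hDT : D ⊆ T i := by
    intro j hj
    have := (Finset.mem_filter.1 hj).2
    rw [← this]; exact hTi j
  have hR : (T i \ D).biUnion T = T i \ D := by
    ext k
    constructor
    · intro hk
      obtain ⟨j, hj, hkj⟩ := Finset.mem_biUnion.1 hk
      obtain ⟨hj1, hj2⟩ := Finset.mem_sdiff.1 hj
      have hji : T j ⊆ T i := hTA j _ (hT i) hj1
      refine Finset.mem_sdiff.2 ⟨hji hkj, fun hkD => ?_⟩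
      have hk' : T k = T i := (Finset.mem_filter.1 hkD).2
      have h1 : T k ⊆ T j := hTA k _ (hT j) hkj
      rw [hk'] at h1
      exact hj2 (Finset.mem_filter.2 ⟨Finset.mem_univ _, Finset.Subset.antisymm hji h1⟩)
    · intro hk
      exact Finset.mem_biUnion.2 ⟨k, hk, hTi k⟩
  have hRZ : ∑ j ∈ T i \ D, x j ∈ Zs := by
    rcases tight_biUnion r x hr hx T hT (T i \ D) with h | h
    · rw [h]; simp
    · rw [hR] at h; exact tight_mem r x _ h
  have hDZ : ∑ j ∈ D, x j ∈ Zs := by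
    have h1 := Finset.sum_sdiff (f := x) hDT
    have h2 : ∑ j ∈ D, x j = ∑ j ∈ T i, x j - ∑ j ∈ T i \ D, x j := by linarith
    rw [h2]
    exact Zs.sub_mem (tight_mem r x _ (hT i)) hRZ
  have hiD : i ∈ D := Finset.mem_filter.2 ⟨Finset.mem_univ _, rfl⟩
  have hEZ : ∑ j ∈ D.erase i, x j ∈ Zs := by
    apply sum_mem
    intro j hj
    obtain ⟨hj1, hj2⟩ := Finset.mem_erase.1 hj
    have hj3 : T j = T i := (Finset.mem_filter.1 hj2).2
    by_cases h0 : x j = 0
    · rw [h0]; exact Zs.zero_mem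
    · by_cases h1 : x j = 1
      · rw [h1]; exact ⟨1, by simp⟩
      · exact absurd hj3 (hcon j ⟨h0, h1⟩ hj1)
  have hxi : x i ∈ Zs := by
    have h1 := Finset.add_sum_erase D x hiD
    have h2 : x i = ∑ j ∈ D, x j - ∑ j ∈ D.erase i, x j := by linarith
    rw [h2]; exact Zs.sub_mem hDZ hEZ
  obtain ⟨m, hm⟩ := hxi
  have hm' : (m : ℝ) = x i := hm
  have h0 : (0 : ℝ) < m := by
    rw [hm']; exact lt_of_le_of_ne (hx0 i) (Ne.symm hi.1)
  have h1 : (m : ℝ) < 1 := by
    rw [hm']; exact lt_of_le_of_ne (hx1 i) hi.2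
  have h0' : (0 : ℤ) < m := by exact_mod_cast h0
  have h1' : m < (1 : ℤ) := by exact_mod_cast h1
  omega

theorem tele (f : ℕ → ℝ) (s t : ℕ) (h : s ≤ t) :
    ∑ k ∈ Finset.Ico s t, (f k - f (k + 1)) = f s - f t := by
  induction t, h using Nat.le_induction with
  | base => simp
  | succ t hst ih => rw [Finset.sum_Ico_succ_top hst, ih]; ring

/-- Step (2): the walk. -/
theorem step2 {I : Type} [Fintype I] [DecidableEq I] (c : I → I) (r : Finset I → ℕ)
    (x : I → ℝ) (hc : ∀ i, c (c i) = i) (hc' : ∀ i, c i ≠ i) (hxc : ∀ i, x i + x (c i) = 1)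
    (hr : ∀ A B : Finset I, r (A ∪ B) + r (A ∩ B) ≤ r A + r B)
    (hx : ∀ A : Finset I, ∑ i ∈ A, x i ≤ r A) (hx0 : ∀ i, 0 ≤ x i) (hx1 : ∀ i, x i ≤ 1)
    (T : I → Finset I) (hT : ∀ i, Tight r x (T i)) (hTi : ∀ i, i ∈ T i)
    (hTA : ∀ i A, Tight r x A → i ∈ A → T i ⊆ A) (i₀ : I) (hi₀ : x i₀ ≠ 0 ∧ x i₀ ≠ 1) :
    ∃ z : I → ℝ, z ≠ 0 ∧ (∀ j, z (c j) = - z j) ∧ (∀ j, x j = 0 → z j = 0) ∧
      ∀ A, Tight r x A → ∑ j ∈ A, z j = 0 := by
  classical
  have hFc : ∀ i, (x i ≠ 0 ∧ x i ≠ 1) → (x (c i) ≠ 0 ∧ x (c i) ≠ 1) := by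
    intro i hi
    have h := hxc i
    constructor
    · intro h0; apply hi.2; linarith
    · intro h0; apply hi.1; linarith
  have hex : ∀ i, ∃ j, (x i ≠ 0 ∧ x i ≠ 1) →
      ((x j ≠ 0 ∧ x j ≠ 1) ∧ j ≠ c i ∧ T j = T (c i)) := by
    intro i
    by_cases hi : x i ≠ 0 ∧ x i ≠ 1
    · obtain ⟨j, hj⟩ := step1 r x hr hx hx0 hx1 T hT hTi hTA (c i) (hFc i hi)
      exact ⟨j, fun _ => hj⟩
    · exact ⟨i, fun h => absurd h hi⟩
  choose n hn using hex
  set w : ℕ → I := fun k => n^[k] i₀ with hw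
  have hws : ∀ k, w (k + 1) = n (w k) := fun k => Function.iterate_succ_apply' n k i₀
  have hwF : ∀ k, x (w k) ≠ 0 ∧ x (w k) ≠ 1 := by
    intro k
    induction k with
    | zero => exact hi₀
    | succ k ih => rw [hws]; exact (hn _ ih).1
  have hwn : ∀ k, w (k + 1) ≠ c (w k) := fun k => by rw [hws]; exact (hn _ (hwF k)).2.1
  have hwT : ∀ k, T (w (k + 1)) = T (c (w k)) := fun k => by rw [hws]; exact (hn _ (hwF k)).2.2
  have hP : ∃ t, ∃ s, s < t ∧ T (w s) = T (w t) := by
    obtain ⟨a, b, hab, h⟩ := Finite.exists_ne_map_eq_of_infinite (fun k => T (w k))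
    rcases lt_or_gt_of_ne hab with h1 | h1
    · exact ⟨b, a, h1, h⟩
    · exact ⟨a, b, h1, h.symm⟩
  obtain ⟨s, hst, hTst⟩ := Nat.find_spec hP
  have hmin : ∀ k, k < Nat.find hP → ∀ l, l < k → T (w l) ≠ T (w k) :=
    fun k hk l hl he => Nat.find_min hP hk ⟨l, hl, he⟩
  generalize Nat.find hP = t at hst hTst hmin
  refine ⟨fun j => ∑ k ∈ Finset.Ico s t,
    ((if j = w k then (1 : ℝ) else 0) - (if j = c (w k) then 1 else 0)), ?_, ?_, ?_, ?_⟩
  · intro h0
    have h1 := congrFun h0 (w s)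
    simp only [Pi.zero_apply] at h1
    have h2 : ∑ k ∈ Finset.Ico s t,
        ((if w s = w k then (1 : ℝ) else 0) - (if w s = c (w k) then 1 else 0)) = 1 := by
      rw [Finset.sum_eq_single s]
      · have : w s ≠ c (w s) := fun h => hc' _ h.symm
        simp [this]
      · intro k hk hks
        obtain ⟨hk1, hk2⟩ := Finset.mem_Ico.1 hk
        have hk3 : s < k := lt_of_le_of_ne hk1 (Ne.symm hks)
        have e1 : w s ≠ w k := by
          intro h
          exact hmin k hk2 s hk3 (by rw [h])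
        have e2 : w s ≠ c (w k) := by
          intro h
          have h3 : T (w (k + 1)) = T (w s) := by rw [hwT, ← h]
          have h4 : k + 1 = t := by
            by_contra hne
            have : k + 1 < t := by omega
            exact hmin (k + 1) this s (by omega) h3.symm
          have h5 : w k = c (w s) := by rw [h, hc]
          by_cases h6 : k = s + 1
          · rw [h6] at h5
            exact hwn s h5
          · have h7 : s + 1 < k := by omega
            refine hmin k hk2 (s + 1) h7 ?_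
            rw [hwT, h5]
        rw [if_neg e1, if_neg e2]; simp
      · intro h
        exact absurd (Finset.mem_Ico.2 ⟨le_refl s, hst⟩) h
    rw [h2] at h1
    exact one_ne_zero h1
  · intro j
    rw [← Finset.sum_neg_distrib]
    apply Finset.sum_congr rfl
    intro k _
    have e1 : (c j = w k) ↔ (j = c (w k)) := by
      constructor
      · intro h; rw [← h, hc]
      · intro h; rw [h, hc]
    have e2 : (c j = c (w k)) ↔ (j = w k) := by
      constructor
      · intro h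
        have := congrArg c h
        rwa [hc, hc] at this
      · intro h; rw [h]
    simp only [e1, e2]; ring
  · intro j hj
    apply Finset.sum_eq_zero
    intro k _
    have e1 : j ≠ w k := fun h => (hwF k).1 (h ▸ hj)
    have e2 : j ≠ c (w k) := fun h => (hFc _ (hwF k)).1 (h ▸ hj)
    rw [if_neg e1, if_neg e2]; simp
  · intro A hA
    rw [Finset.sum_comm]
    have hmem : ∀ j, j ∈ A ↔ T j ⊆ A := fun j => ⟨fun h => hTA j A hA h, fun h => h (hTi j)⟩
    have h1 : ∀ k ∈ Finset.Ico s t, (∑ j ∈ A,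
        ((if j = w k then (1 : ℝ) else 0) - (if j = c (w k) then 1 else 0))) =
        (if w k ∈ A then (1 : ℝ) else 0) - (if w (k + 1) ∈ A then 1 else 0) := by
      intro k _
      rw [Finset.sum_sub_distrib, Finset.sum_ite_eq', Finset.sum_ite_eq']
      have : (c (w k) ∈ A) ↔ (w (k + 1) ∈ A) := by rw [hmem, hmem, hwT]
      simp only [this]
    rw [Finset.sum_congr rfl h1,
      tele (fun k => if w k ∈ A then (1 : ℝ) else 0) s t hst.le]
    have : (w s ∈ A) ↔ (w t ∈ A) := by rw [hmem, hmem, hTst]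
    simp only [this, sub_self]

theorem m_ext : M_EXT := by
  intro I _ _ c r d hc hc' hI hd hr x hx
  obtain ⟨hxP, hxe⟩ := mem_extremePoints.1 hx
  obtain ⟨hx0, hxc, hxr⟩ := hxP
  have hx1 : ∀ i, x i ≤ 1 := fun i => by have := hxc i; have := hx0 (c i); linarith
  by_contra hcon
  push Not at hcon
  obtain ⟨i₀, hi₀⟩ := hcon
  have hu := tight_univ c r d x hc hI hd hxc
  obtain ⟨T, hT, hTi, hTA⟩ := exists_T r x hr hxr hu
  obtain ⟨z, hz, hzc, hz0, hzA⟩ :=
    step2 c r x hc hc' hxc hr hxr hx0 hx1 T hT hTi hTA i₀ hi₀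
  have hU : ∀ᶠ ε in nhds (0 : ℝ), (x + ε • z) ∈ Pol c r := by
    have h1 : ∀ᶠ ε in nhds (0 : ℝ), ∀ i, 0 ≤ x i + ε * z i := by
      rw [Filter.eventually_all]
      intro i
      by_cases h0 : x i = 0
      · rw [h0, hz0 i h0]; simp
      · have h2 : 0 < x i + 0 * z i := by
          rw [zero_mul, add_zero]; exact lt_of_le_of_ne (hx0 i) (Ne.symm h0)
        have h3 : ContinuousAt (fun ε : ℝ => x i + ε * z i) 0 := by fun_prop
        exact (h3.eventually (lt_mem_nhds h2)).mono (fun ε h => h.le)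
    have h2 : ∀ᶠ ε in nhds (0 : ℝ), ∀ A : Finset I, ∑ i ∈ A, (x i + ε * z i) ≤ r A := by
      rw [Filter.eventually_all]
      intro A
      have h3 : ∀ ε : ℝ, ∑ i ∈ A, (x i + ε * z i) = ∑ i ∈ A, x i + ε * ∑ i ∈ A, z i := by
        intro ε; rw [Finset.sum_add_distrib, Finset.mul_sum]
      simp only [h3]
      by_cases hA : Tight r x A
      · rw [hzA A hA]
        simp only [mul_zero, add_zero]
        exact Filter.Eventually.of_forall (fun _ => hxr A)
      · have h4 : ∑ i ∈ A, x i + 0 * ∑ i ∈ A, z i < r A := by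
          rw [zero_mul, add_zero]; exact lt_of_le_of_ne (hxr A) hA
        have h5 : ContinuousAt (fun ε : ℝ => ∑ i ∈ A, x i + ε * ∑ i ∈ A, z i) 0 := by fun_prop
        exact (h5.eventually (gt_mem_nhds h4)).mono (fun ε h => h.le)
    filter_upwards [h1, h2] with ε e1 e2
    refine ⟨fun i => ?_, fun i => ?_, fun A => ?_⟩
    · simpa using e1 i
    · simp only [Pi.add_apply, Pi.smul_apply, smul_eq_mul, hzc]
      have := hxc i
      linarith
    · simpa using e2 A
  obtain ⟨δ, hδ, hball⟩ := Metric.eventually_nhds_iff.1 hU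
  have hp : x + (δ / 2) • z ∈ Pol c r := hball (by
    rw [Real.dist_eq, sub_zero, abs_of_pos (by linarith)]; linarith)
  have hm : x + (-(δ / 2)) • z ∈ Pol c r := hball (by
    rw [Real.dist_eq, sub_zero, abs_neg, abs_of_pos (by linarith)]; linarith)
  have hseg : x ∈ openSegment ℝ (x + (δ / 2) • z) (x + (-(δ / 2)) • z) := by
    refine ⟨1 / 2, 1 / 2, by norm_num, by norm_num, by norm_num, ?_⟩
    ext i
    simp only [Pi.add_apply, Pi.smul_apply, smul_eq_mul]
    ring
  have h1 := (hxe _ hp _ hm hseg)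
  have h2 : x + (δ / 2) • z = x := h1.1
  have h3 : (δ / 2) • z = 0 := by simpa using h2
  rcases smul_eq_zero.1 h3 with h | h
  · linarith
  · exact hz h

end Pool.Agent.Helper27.SD
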